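import Pool.Agent.H59.L.S8.W695.KH.Defs

/-! KH-MAIN: assembly. -/

set_option autoImplicit false

namespace Pool.Agent.W932.KH

open MeasureTheory Set Filter Topology
open scoped ENNReal InnerProductSpace Pointwise
open Pool.Agent.W695.KH

section

variable {κ : Type} [Fintype κ] {Ω : Set (Eu κ)}

theorem closure_ae (ho : IsOpen Ω) (hc : Convex ℝ Ω) :
    (closure Ω : Set (Eu κ)) =ᵐ[volume] Ω := by
  have h1 : volume (frontier Ω) = 0 := hc.addHaar_frontier volume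
  have h2 : volume (closure Ω \ Ω) = 0 := by
    rw [ho.frontier_eq] at h1
    exact h1
  have h3 : (Ω : Set (Eu κ)) ≤ᵐ[volume] closure Ω := (subset_closure).eventuallyLE
  have h4 : (closure Ω : Set (Eu κ)) ≤ᵐ[volume] Ω := ae_le_set.mpr h2
  exact h4.antisymm h3

theorem EV_scale (ho : IsOpen Ω) (hc : Convex ℝ Ω) (r : ℝ) (hr : 0 < r) (f : Eu κ → ℝ) :
    EV (r • closure Ω) f = EV Ω (fun x => f (r • x)) := by
  have h1 := Measure.setIntegral_comp_smul_of_pos (volume : Measure (Eu κ)) f (closure Ω) hr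
  have h2 : volume (r • closure Ω) =
      ENNReal.ofReal |r ^ Module.finrank ℝ (Eu κ)| * volume (closure Ω) :=
    Measure.addHaar_smul volume r (closure Ω)
  have h3 : ∫ x in closure Ω, f (r • x) = ∫ x in Ω, f (r • x) :=
    setIntegral_congr_set (closure_ae ho hc)
  have h4 : volume (closure Ω) = volume Ω := measure_congr (closure_ae ho hc)
  have hrn : 0 < r ^ Module.finrank ℝ (Eu κ) := pow_pos hr _
  unfold EV
  rw [h2, ENNReal.toReal_mul, ENNReal.toReal_ofReal (abs_nonneg _), abs_of_pos hrn, h4, ← h3, h1,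
    smul_eq_mul]
  by_cases hv : (volume Ω).toReal = 0
  · rw [hv]; simp
  · field_simp

theorem bound_of (hb : Bornology.IsBounded Ω) : ∃ R : ℝ, 0 < R ∧ ∀ x ∈ Ω, ‖x‖ ≤ R := by
  obtain ⟨R, hR, h⟩ := hb.exists_pos_norm_le
  exact ⟨R, hR, h⟩

theorem q_integrable (ho : IsOpen Ω) (hb : Bornology.IsBounded Ω) (θ : Eu κ) :
    IntegrableOn (fun x : Eu κ => ⟪θ, x⟫_ℝ ^ 2) Ω := by
  obtain ⟨R, hR, hx⟩ := bound_of hb
  have hfin : volume Ω < ⊤ := hb.measure_lt_top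
  refine Measure.integrableOn_of_bounded (M := ‖θ‖ ^ 2 * R ^ 2) hfin.ne ?_ ?_
  · exact (by fun_prop : Continuous fun x : Eu κ => ⟪θ, x⟫_ℝ ^ 2).aestronglyMeasurable
  · refine (ae_restrict_iff' ho.measurableSet).mpr (Eventually.of_forall fun x hxΩ => ?_)
    rw [Real.norm_eq_abs, abs_pow]
    have h1 : |⟪θ, x⟫_ℝ| ≤ ‖θ‖ * R :=
      (abs_real_inner_le_norm θ x).trans (mul_le_mul_of_nonneg_left (hx x hxΩ) (norm_nonneg _))
    calc |⟪θ, x⟫_ℝ| ^ 2 ≤ (‖θ‖ * R) ^ 2 := pow_le_pow_left₀ (abs_nonneg _) h1 2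
      _ = ‖θ‖ ^ 2 * R ^ 2 := by ring

theorem q_smul (c : ℝ) (θ : Eu κ) :
    EV Ω (fun x => ⟪c • θ, x⟫_ℝ ^ 2) = c ^ 2 * EV Ω (fun x => ⟪θ, x⟫_ℝ ^ 2) := by
  unfold EV
  have h1 : ∀ x : Eu κ, ⟪c • θ, x⟫_ℝ ^ 2 = c ^ 2 * ⟪θ, x⟫_ℝ ^ 2 := by
    intro x
    rw [real_inner_smul_left]
    ring
  simp only [h1]
  rw [integral_const_mul, mul_div_assoc]

theorem q_pos (ho : IsOpen Ω) (hb : Bornology.IsBounded Ω) (h0 : (0 : Eu κ) ∈ Ω) (a : Eu κ)
    (ha : ‖a‖ = 1) : 0 < EV Ω (fun x => ⟪a, x⟫_ℝ ^ 2) := by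
  have hfin : volume Ω < ⊤ := hb.measure_lt_top
  have hvol : 0 < (volume Ω).toReal :=
    ENNReal.toReal_pos (ho.measure_pos volume ⟨0, h0⟩).ne' hfin.ne
  refine div_pos ?_ hvol
  rw [setIntegral_pos_iff_support_of_nonneg_ae
    (Eventually.of_forall fun x => sq_nonneg _) (q_integrable ho hb a)]
  have hopen : IsOpen (Function.support (fun x : Eu κ => ⟪a, x⟫_ℝ ^ 2) ∩ Ω) :=
    (by fun_prop : Continuous fun x : Eu κ => ⟪a, x⟫_ℝ ^ 2).isOpen_support.inter ho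
  refine hopen.measure_pos volume ?_
  obtain ⟨ε, hε, hball⟩ := Metric.isOpen_iff.mp ho 0 h0
  refine ⟨(ε / 2) • a, ?_, ?_⟩
  · rw [Function.mem_support, real_inner_smul_right, real_inner_self_eq_norm_sq, ha]
    have : 0 < ε / 2 := by linarith
    positivity
  · apply hball
    rw [mem_ball_zero_iff, norm_smul, ha, Real.norm_eq_abs, abs_of_pos (by linarith : 0 < ε / 2)]
    linarith

theorem q_max [Nonempty κ] (ho : IsOpen Ω) (hb : Bornology.IsBounded Ω) :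
    ∃ a : Eu κ, ‖a‖ = 1 ∧ ∀ θ : Eu κ, EV Ω (fun x => ⟪θ, x⟫_ℝ ^ 2) ≤
      EV Ω (fun x => ⟪a, x⟫_ℝ ^ 2) * ‖θ‖ ^ 2 := by
  obtain ⟨R, hR, hx⟩ := bound_of hb
  have hfin : volume Ω < ⊤ := hb.measure_lt_top
  have hcont : ContinuousOn (fun θ : Eu κ => EV Ω (fun x => ⟪θ, x⟫_ℝ ^ 2))
      (Metric.sphere (0 : Eu κ) 1) := by
    unfold EV
    refine ContinuousOn.div_const ?_ _
    refine continuousOn_of_dominated (bound := fun _ => R ^ 2) ?_ ?_ ?_ ?_
    · intro θ _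
      exact (by fun_prop : Continuous fun x : Eu κ => ⟪θ, x⟫_ℝ ^ 2).aestronglyMeasurable
    · intro θ hθ
      refine (ae_restrict_iff' ho.measurableSet).mpr (Eventually.of_forall fun x hxΩ => ?_)
      rw [mem_sphere_zero_iff_norm] at hθ
      rw [Real.norm_eq_abs, abs_pow]
      have h1 : |⟪θ, x⟫_ℝ| ≤ R := by
        refine (abs_real_inner_le_norm θ x).trans ?_
        rw [hθ, one_mul]
        exact hx x hxΩ
      exact pow_le_pow_left₀ (abs_nonneg _) h1 2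
    · exact integrableOn_const hfin.ne
    · exact Eventually.of_forall fun x => by fun_prop
  have hne : (Metric.sphere (0 : Eu κ) 1).Nonempty := NormedSpace.sphere_nonempty.mpr zero_le_one
  obtain ⟨a, ha, hmax⟩ := (isCompact_sphere (0 : Eu κ) 1).exists_isMaxOn hne hcont
  rw [mem_sphere_zero_iff_norm] at ha
  refine ⟨a, ha, fun θ => ?_⟩
  by_cases hθ : θ = 0
  · subst hθ
    have h1 := q_smul (Ω := Ω) 0 (0 : Eu κ)
    rw [zero_smul] at h1
    rw [h1, norm_zero]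
    simp
  · have hn : 0 < ‖θ‖ := norm_pos_iff.mpr hθ
    have h1 : θ = ‖θ‖ • (‖θ‖⁻¹ • θ) := by rw [smul_smul, mul_inv_cancel₀ hn.ne', one_smul]
    have h2 : ‖θ‖⁻¹ • θ ∈ Metric.sphere (0 : Eu κ) 1 := by
      rw [mem_sphere_zero_iff_norm, norm_smul, norm_inv, norm_norm, inv_mul_cancel₀ hn.ne']
    have h3 : EV Ω (fun x => ⟪‖θ‖⁻¹ • θ, x⟫_ℝ ^ 2) ≤ EV Ω (fun x => ⟪a, x⟫_ℝ ^ 2) := hmax h2
    have h4 : EV Ω (fun x => ⟪θ, x⟫_ℝ ^ 2) =
        ‖θ‖ ^ 2 * EV Ω (fun x => ⟪‖θ‖⁻¹ • θ, x⟫_ℝ ^ 2) := by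
      rw [← q_smul, ← h1]
    rw [h4, mul_comm]
    exact mul_le_mul_of_nonneg_right h3 (sq_nonneg _)

end

theorem t_main (hb : S_body) (hc : S_cov) (hp : S_perim) (hs : S_sec) : S_main := by
  obtain ⟨Cs, hCs, hs⟩ := hs
  refine ⟨120 * Real.sqrt Cs, by positivity, ?_⟩
  intro κ _ _ Ω ho hconv hbd h0 hsym k hk H
  obtain ⟨a, ha, hmax⟩ := q_max (Ω := Ω) ho hbd
  set s := EV Ω (fun x => ⟪a, x⟫_ℝ ^ 2) with hsdef
  have hspos : 0 < s := q_pos ho hbd h0 a ha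
  have hfin : volume Ω < ⊤ := hbd.measure_lt_top
  have hvol : 0 < (volume Ω).toReal :=
    ENNReal.toReal_pos (ho.measure_pos volume ⟨0, h0⟩).ne' hfin.ne
  refine ⟨a, ?_, ?_⟩
  · rintro rfl
    rw [norm_zero] at ha
    exact zero_ne_one ha
  intro E hE hEΩ hEvol P hP
  -- the bound with `η`
  have key : ∀ η : ℝ, 0 < η → (volume Ω).toReal ≤ 3 * (40 * Real.sqrt (k * (s + η))) * P := by
    intro η hη
    have hksη : 0 < k * (s + η) := by positivity
    refine hp κ Ω ho hconv hbd h0 E hE hEΩ hEvol P hP (40 * Real.sqrt (k * (s + η)))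
      (by positivity) ?_
    intro r hr0 hr1 f L M hf hf12 hV
    have hDc : IsCompact (r • closure Ω) :=
      (Metric.isCompact_of_isClosed_isBounded isClosed_closure hbd.closure).smul r
    have hDconv : Convex ℝ (r • closure Ω) := hconv.closure.smul r
    have hDvol : 0 < volume (r • closure Ω) := by
      rw [Measure.addHaar_smul]
      refine ENNReal.mul_pos ?_ ?_
      · rw [abs_of_pos (pow_pos hr0 _)]
        exact (ENNReal.ofReal_pos.mpr (pow_pos hr0 _)).ne'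
      · exact (lt_of_lt_of_le (ho.measure_pos volume ⟨0, h0⟩) (measure_mono subset_closure)).ne'
    have hDcov : ∀ θ : Eu κ, EV (r • closure Ω) (fun x => ⟪θ, x⟫_ℝ ^ 2) ≤ s * ‖θ‖ ^ 2 := by
      intro θ
      rw [EV_scale ho hconv r hr0]
      have h1 : (fun x : Eu κ => ⟪θ, r • x⟫_ℝ ^ 2) = fun x => ⟪r • θ, x⟫_ℝ ^ 2 := by
        funext x
        rw [real_inner_smul_right, real_inner_smul_left]
      rw [h1]
      refine (hmax (r • θ)).trans ?_
      rw [norm_smul, Real.norm_eq_abs, abs_of_pos hr0, mul_pow]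
      have h2 : r ^ 2 ≤ 1 := pow_le_one₀ hr0.le hr1.le
      have h3 : r ^ 2 * ‖θ‖ ^ 2 ≤ 1 * ‖θ‖ ^ 2 := mul_le_mul_of_nonneg_right h2 (sq_nonneg _)
      rw [one_mul] at h3
      exact mul_le_mul_of_nonneg_left h3 hspos.le
    have hev := hc κ (r • closure Ω) hDc hDconv hDvol s η hη hDcov
    let c : ℝ := (1 / 20) ^ 2 / (k * (s + η))
    have hcpos : 0 < c := by positivity
    have hW : ∀ᶠ A in atTop, WPo (Uu (r • closure Ω) A) (1 / 20) c := by
      filter_upwards [hev, eventually_gt_atTop (0 : ℝ)] with A hA hA0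
      intro v L' hv hv1 hvL hvar
      have h1 := H r A (s + η) hr0 hr1 hA0 (by linarith) hA v hv hv1 ⟨L', hvL⟩
      show (1 / 20) ^ 2 / (k * (s + η)) ≤ _
      rw [div_le_iff₀ hksη]
      have h2 : ((1 : ℝ) / 20) ^ 2 ≤ (EU (Uu (r • closure Ω) A) (fun x => v x ^ 2) -
          EU (Uu (r • closure Ω) A) v ^ 2) ^ 2 := pow_le_pow_left₀ (by norm_num) hvar 2
      linarith
    have hfin2 := hb κ (r • closure Ω) hDc hDconv hDvol (1 / 20) c (by norm_num) hcpos hW f L M hf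
      hf12 (by linarith)
    refine hfin2.trans (le_of_eq ?_)
    rw [mul_pow, mul_pow, Real.sq_sqrt hksη.le]
    show 4 / ((1 / 20) ^ 2 / (k * (s + η))) * _ = _
    field_simp
    ring
  have hPpos : 0 < P := by
    have h1 := key 1 one_pos
    have h2 : 0 < 3 * (40 * Real.sqrt (k * (s + 1))) := by positivity
    by_contra hcon
    push Not at hcon
    have : 3 * (40 * Real.sqrt (k * (s + 1))) * P ≤ 0 :=
      mul_nonpos_of_nonneg_of_nonpos h2.le hcon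
    linarith
  -- square and let `η → 0`
  have hsq : (volume Ω).toReal ^ 2 ≤ 120 ^ 2 * k * s * P ^ 2 := by
    refine le_of_forall_pos_le_add fun ε hε => ?_
    have hkP : 0 < 120 ^ 2 * k * P ^ 2 := by positivity
    have h1 := key (ε / (120 ^ 2 * k * P ^ 2)) (by positivity)
    have h2 := pow_le_pow_left₀ hvol.le h1 2
    refine h2.trans (le_of_eq ?_)
    rw [mul_pow, mul_pow, mul_pow, Real.sq_sqrt (by positivity)]
    field_simp
    ring
  obtain ⟨hsec1, hsec2, -⟩ := hs κ Ω ho hconv hbd h0 hsym a ha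
  have h3 : (sec Ω a).toReal ^ 2 ≤ (120 * Real.sqrt Cs * Real.sqrt k * P) ^ 2 := by
    have h4 : (sec Ω a).toReal ^ 2 * s ≤ Cs * (120 ^ 2 * k * s * P ^ 2) :=
      hsec2.trans (mul_le_mul_of_nonneg_left hsq hCs.le)
    have h5 : (120 * Real.sqrt Cs * Real.sqrt k * P) ^ 2 = 120 ^ 2 * Cs * k * P ^ 2 := by
      rw [mul_pow, mul_pow, mul_pow, Real.sq_sqrt hCs.le, Real.sq_sqrt hk.le]
    rw [h5]
    have h6 : (sec Ω a).toReal ^ 2 * s ≤ (120 ^ 2 * Cs * k * P ^ 2) * s := by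
      refine h4.trans (le_of_eq ?_)
      ring
    exact le_of_mul_le_mul_right h6 hspos
  have h7 : (sec Ω a).toReal ≤ 120 * Real.sqrt Cs * Real.sqrt k * P :=
    le_of_sq_le_sq h3 (by positivity)
  rw [← ENNReal.ofReal_toReal hsec1]
  exact ENNReal.ofReal_le_ofReal h7

end Pool.Agent.W932.KH
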